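import Pool.Agent.H801.Tri.Kernel

/-!
# INDEPENDENT SET ON TRIANGLE-FREE GRAPHS has no kernel of linear order, unless `coNP` is contained
in `NP/poly`
-/

namespace Pool.Agent.Results.MP_ced634_lc.NoLinearKernel

open Pool.Agent.NPC Pool.Agent.H801.Tri
open Pool.Agent.H801.Fvs (InNPpoly)

/-- If INDEPENDENT SET ON TRIANGLE-FREE GRAPHS has a kernelization whose output graph has order
`O(k)`, then `coNP` is contained in `NP/poly`. The same follows if the instances can be mapped in
polynomial time to equivalent instances of INDEPENDENT SET on arbitrary graphs of order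
`O(k ^ 1.01)`, or to strings of `O(k ^ 2.02)` bits. -/
theorem result : (LinearKernel → ∀ L : Set (List Bool), InCoNP L → InNPpoly L) ∧
    (SmallKernel → ∀ L : Set (List Bool), InCoNP L → InNPpoly L) ∧
    (SmallCompression → ∀ L : Set (List Bool), InCoNP L → InNPpoly L) :=
  ⟨fun h => Pool.Agent.H801.Tri.main h.small.compression,
    fun h => Pool.Agent.H801.Tri.main h.compression, Pool.Agent.H801.Tri.main⟩

end Pool.Agent.Results.MP_ced634_lc.NoLinearKernel
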